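import Pool.Agent.Work.MP_fe1501_st.B_LIF
import Pool.Agent.Work.MP_fe1501_st.B_AVO
import Pool.Agent.Work.MP_fe1501_st.B_SPC
import Pool.Agent.Work.MP_fe1501_st.B_FIX
import Pool.Agent.Work.MP_fe1501_st.B_EUL
import Pool.Agent.Work.MP_fe1501_st.B_GRP
import Pool.Agent.Work.MP_fe1501_st.B_COM
import Pool.Agent.Work.MP_fe1501_st.B_MAIN

/-!
# Sphere twists of the 3-sphere are products of two commutators (MP_fe1501_gt)
-/

set_option autoImplicit false

open scoped ContDiff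

namespace Pool.Agent.Results.MP_fe1501_gt.SphereTwists

open Pool.Agent.Work.MP_fe1501_h42 Pool.Agent.Work.MP_fe1501_st

/-- `g` is a commutator of elements of `Diff₀(S³, vol)` -/
def IsComm (g : Equiv.Perm S3) : Prop :=
  ∃ A B : Equiv.Perm S3, InG A ∧ InG B ∧ g = A * B * A⁻¹ * B⁻¹

/-- Let `G = Diff₀(S³, vol)` (`InG`, the same group as in the frozen statement), `S³` the unit sphere
of `ℝ × ℝ³`, and let `A : ℝ → SO(3)` be any smooth path.  Then the map `(x₀, x') ↦ (x₀, A(x₀) x')` of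
`S³` is an element of `G` and a product of two commutators of elements of `G`. -/
theorem result (A : ℝ → Matrix (Fin 3) (Fin 3) ℝ) (hA : IsPath A) :
    ∃ g : Equiv.Perm S3, IsSph A g ∧ InG g ∧
      ∃ g₁ g₂ : Equiv.Perm S3, IsComm g₁ ∧ IsComm g₂ ∧ g = g₁ * g₂ := by
  have hSPC := p_SPC p_LIF
  have hFIX := p_FIX p_LIF
  have hEUL := p_EUL p_AVO hSPC hFIX
  have hCOM := p_COM p_GRP
  obtain ⟨g, h1, h2, X, Y, Z, W, hX, hY, hZ, hW, e⟩ := p_MAIN hEUL hCOM p_GRP A hA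
  exact ⟨g, h1, h2, _, _, ⟨X, Y, hX, hY, rfl⟩, ⟨Z, W, hZ, hW, rfl⟩, e⟩

end Pool.Agent.Results.MP_fe1501_gt.SphereTwists
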