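import Pool.Agent.Work.MP_fe1501_h42.Main

set_option autoImplicit false

open MeasureTheory Metric Set
open scoped ContDiff NNReal

namespace Pool.Agent.Results.MP_fe1501_gt.TorusTwists

open Pool.Agent.Work.MP_fe1501_h42

/-- `u` is smooth -/
def Smooth (u : E4 → ℝ) : Prop := ContDiff ℝ ∞ u

/-- `u` is invariant, on the sphere, under the torus action `(z, w) ↦ (e^{is} z, e^{it} w)` -/
def InvT (u : E4 → ℝ) : Prop := ∀ s t : ℝ, ∀ x ∈ S3, u (Rot s t x) = u x

/-- `g` is the map `(z, w) ↦ (e^{iα(z,w)} z, e^{iβ(z,w)} w)` -/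
def IsTwist (α β : E4 → ℝ) (g : Equiv.Perm S3) : Prop :=
  ∀ x : S3, ((g x : S3) : E4) = Rot (α x) (β x) x

/-- `g` is a commutator of elements of `Diff₀(S³, vol)` -/
def IsComm (g : Equiv.Perm S3) : Prop :=
  ∃ A B : Equiv.Perm S3, InG A ∧ InG B ∧ g = A * B * A⁻¹ * B⁻¹

/-- Let `G = Diff₀(S³, vol)` (`InG`, the same group as in the frozen statement).  Write `R⁴ = ℂ²`,
`x = (z, w)`, and let `Rot s t (z, w) = (e^{is} z, e^{it} w)`.  Let `p, q` be integers, not both zero,
and let `α, β : R⁴ → ℝ` be smooth functions which on the sphere are invariant under the circle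
action `Rot (p s) (q s)` and such that `p β - q α` is on the sphere invariant under the whole torus
action.  Then `(z, w) ↦ (e^{iα(z,w)} z, e^{iβ(z,w)} w)` is an element of `G` and a product of two
commutators of elements of `G`. -/
theorem result (p q : ℤ) (hpq : ¬(p = 0 ∧ q = 0)) (α β : E4 → ℝ) (hα : Smooth α) (hβ : Smooth β)
    (hαR : InvS p q α) (hβR : InvS p q β) (hT : InvT (fun x => p * β x - q * α x)) :
    ∃ g : Equiv.Perm S3, IsTwist α β g ∧ InG g ∧
      ∃ g₁ g₂ : Equiv.Perm S3, IsComm g₁ ∧ IsComm g₂ ∧ g = g₁ * g₂ := by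
  have hN : ((p : ℝ) ^ 2 + (q : ℝ) ^ 2) ≠ 0 := by
    intro h0
    apply hpq
    have h1 : (p : ℝ) ^ 2 = 0 := by nlinarith [sq_nonneg (p : ℝ), sq_nonneg (q : ℝ)]
    have h2 : (q : ℝ) ^ 2 = 0 := by nlinarith [sq_nonneg (p : ℝ), sq_nonneg (q : ℝ)]
    constructor
    · exact_mod_cast pow_eq_zero_iff (two_ne_zero) |>.1 h1
    · exact_mod_cast pow_eq_zero_iff (two_ne_zero) |>.1 h2
  set N : ℝ := (p : ℝ) ^ 2 + (q : ℝ) ^ 2 with hNd
  -- the components along the two circle actions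
  set u : E4 → ℝ := fun x => (p * α x + q * β x) / N with hu
  set a : E4 → ℝ := fun x => (p * β x - q * α x) / N with ha
  have hα' : ContDiff ℝ ∞ α := hα
  have hβ' : ContDiff ℝ ∞ β := hβ
  have cu : ContDiff ℝ ∞ u := ((contDiff_const.mul hα').add (contDiff_const.mul hβ')).div_const N
  have ca : ContDiff ℝ ∞ a := ((contDiff_const.mul hβ').sub (contDiff_const.mul hα')).div_const N
  have iu : InvS p q u := by
    intro s x hx
    simp only [hu]
    rw [hαR s x hx, hβR s x hx]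
  have ia1 : InvS p q a := by
    intro s x hx
    have h1 := hT (p * s) (q * s) x hx
    simp only at h1
    simp only [ha]
    rw [h1]
  have ia2 : InvS (-q) p a := by
    intro s x hx
    have h1 := hT ((-q : ℤ) * s) (p * s) x hx
    simp only at h1
    simp only [ha]
    rw [h1]
  -- f = u ∘ k⁻¹
  set f : E4 → ℝ := fun x => u (Rot ((-q : ℤ) * -a x) (p * -a x) x) with hf
  have cf : ContDiff ℝ ∞ f :=
    cu.comp (contDiff_Rot (contDiff_const.mul ca.neg) (contDiff_const.mul ca.neg) contDiff_id)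
  have jf : InvS p q f := by
    intro s x hx
    simp only [hf]
    rw [ia1 s x hx, Rot_Rot, add_comm, add_comm ((p : ℝ) * -a x), ← Rot_Rot, iu s _ (Rot_mem hx)]
  obtain ⟨A, B, C, D, hA, hB, hC, hD, e⟩ := two_comm hpq ia1 ia2 jf ca cf
  refine ⟨tP p q f jf * tP (-q) p a ia2, ?_, (InG_tP cf jf).mul (InG_tP ca ia2), _, _,
    ⟨A, B, hA, hB, rfl⟩, ⟨C, D, hC, hD, rfl⟩, e⟩
  intro x
  have h1 : f (Rot ((-q : ℤ) * a x) (p * a x) x) = u x := by
    simp only [hf]
    rw [ia2 (a x) x x.2, Rot_Rot]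
    congr 1
    rw [show ((-q : ℤ) : ℝ) * -a x + (-q : ℤ) * a x = 0 by ring,
      show (p : ℝ) * -a x + p * a x = 0 by ring, Rot_zero]
  show Rot (p * f (Rot ((-q : ℤ) * a x) (p * a x) x)) (q * f (Rot ((-q : ℤ) * a x) (p * a x) x))
    (Rot ((-q : ℤ) * a x) (p * a x) x) = Rot (α x) (β x) x
  rw [h1, Rot_Rot]
  have e1 : (p : ℝ) * u x + (-q : ℤ) * a x = α x := by
    simp only [hu, ha]
    push_cast
    field_simp
    rw [hNd]
    ring
  have e2 : (q : ℝ) * u x + p * a x = β x := by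
    simp only [hu, ha]
    field_simp
    rw [hNd]
    ring
  rw [e1, e2]

end Pool.Agent.Results.MP_fe1501_gt.TorusTwists
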